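import Pool.Agent.Helper96.Ab.Goals

/-! Packet G (gliding hump) for the normal version of MP_5ff3c6_ag. -/

open scoped Topology
open Filter

namespace Pool.Agent.Helper55.Ab

universe u

theorem hump_step {M : Type u} {κ : Set M} {𝒪 : Set (M → ℂ)}
    (hpow : ∀ f ∈ 𝒪, ∀ k : ℕ, (fun z => f z ^ k) ∈ 𝒪)
    (hmul : ∀ f ∈ 𝒪, ∀ c : ℂ, (fun z => c * f z) ∈ 𝒪)
    {f : M → ℂ} (hf : f ∈ 𝒪) {B : ℝ} (hB : 0 ≤ B) (hκ : ∀ z ∈ κ, ‖f z‖ ≤ B)
    {z : M} (hz : B < ‖f z‖) (lam ε : ℝ) (hlam : 0 ≤ lam) (hε : 0 < ε) :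
    ∃ g ∈ 𝒪, (∀ y ∈ κ, ‖g y‖ ≤ ε) ∧ ‖g z‖ = lam := by
  have hfz : 0 < ‖f z‖ := lt_of_le_of_lt hB hz
  have hr0 : 0 ≤ B / ‖f z‖ := by positivity
  have hr1 : B / ‖f z‖ < 1 := by rw [div_lt_one hfz]; exact hz
  have hlim : Tendsto (fun N : ℕ => lam * (B / ‖f z‖) ^ N) atTop (𝓝 (lam * 0)) :=
    (tendsto_pow_atTop_nhds_zero_of_lt_one hr0 hr1).const_mul lam
  rw [mul_zero] at hlim
  obtain ⟨N, hN⟩ := (hlim.eventually (gt_mem_nhds hε)).exists
  refine ⟨fun y => ((lam : ℂ) / f z ^ N) * (f y ^ N), hmul _ (hpow f hf N) _, ?_, ?_⟩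
  · intro y hy
    have h1 : ‖((lam : ℂ) / f z ^ N) * (f y ^ N)‖ = lam / ‖f z‖ ^ N * ‖f y‖ ^ N := by
      rw [norm_mul, norm_div, norm_pow, norm_pow, Complex.norm_real, Real.norm_of_nonneg hlam]
    rw [h1]
    have h2 : ‖f y‖ ^ N ≤ B ^ N := pow_le_pow_left₀ (norm_nonneg _) (hκ y hy) N
    have h3 : lam / ‖f z‖ ^ N * ‖f y‖ ^ N ≤ lam / ‖f z‖ ^ N * B ^ N :=
      mul_le_mul_of_nonneg_left h2 (by positivity)
    have h4 : lam / ‖f z‖ ^ N * B ^ N = lam * (B / ‖f z‖) ^ N := by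
      rw [div_pow]; ring
    rw [h4] at h3
    exact h3.trans hN.le
  · have hne : f z ^ N ≠ 0 := pow_ne_zero _ (norm_pos_iff.mp hfz)
    show ‖((lam : ℂ) / f z ^ N) * (f z ^ N)‖ = lam
    rw [div_mul_cancel₀ _ hne, Complex.norm_real, Real.norm_of_nonneg hlam]

theorem stmtG : Pool.Agent.Helper96.Ab.StmtG.{u} := by
  intro M κ 𝒪 T hmono hT hpow hmul hsum hbd
  by_contra hcon
  push Not at hcon
  have hκ : Monotone κ := monotone_nat_of_le_succ hmono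
  -- the points
  have key : ∀ i : ℕ, ∃ z ∈ T, ∀ lam ε : ℝ, 0 ≤ lam → 0 < ε →
      ∃ g ∈ 𝒪, (∀ y ∈ κ i, ‖g y‖ ≤ ε) ∧ ‖g z‖ = lam := by
    intro i
    obtain ⟨f, hf, B, hB, hfκ, z, hz, hfz⟩ := hcon i
    exact ⟨z, hz, fun lam ε hlam hε => hump_step hpow hmul hf hB hfκ hfz lam ε hlam hε⟩
  choose zf hzT hzf using key
  have hidx : ∀ z ∈ T, ∃ k, z ∈ κ k := fun z hz => Set.mem_iUnion.mp (hT hz)
  -- one step
  have hstep : ∀ (i : ℕ) (s : (M → ℂ) × ℕ), ∃ (g : M → ℂ) (k : ℕ), g ∈ 𝒪 ∧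
      (∀ y ∈ κ s.2, ‖g y‖ ≤ (1 / 2 : ℝ) ^ (i + 1)) ∧
      ‖g (zf s.2)‖ = i + 2 + ‖s.1 (zf s.2)‖ ∧ s.2 + 1 ≤ k ∧ zf s.2 ∈ κ k := by
    intro i s
    obtain ⟨g, hg, h1, h2⟩ := hzf s.2 (i + 2 + ‖s.1 (zf s.2)‖) ((1 / 2 : ℝ) ^ (i + 1))
      (by positivity) (by positivity)
    obtain ⟨k, hk⟩ := hidx _ (hzT s.2)
    exact ⟨g, max (s.2 + 1) k, hg, h1, h2, le_max_left _ _, hκ (le_max_right _ _) hk⟩
  choose gg kk hgO hgκ hgz hkk hzk using hstep
  let st : ℕ → (M → ℂ) × ℕ := fun n => Nat.rec ((fun _ => 0), 0)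
    (fun i s => ((fun y => s.1 y + gg i s y), kk i s)) n
  have st0 : st 0 = ((fun _ => 0), 0) := rfl
  have stS : ∀ i, st (i + 1) = ((fun y => (st i).1 y + gg i (st i) y), kk i (st i)) :=
    fun i => rfl
  have hν1 : ∀ i, (st i).2 + 1 ≤ (st (i + 1)).2 := fun i => by
    rw [stS]; exact hkk i (st i)
  have hνmono : Monotone fun i => (st i).2 :=
    monotone_nat_of_le_succ fun i => (Nat.le_succ _).trans (hν1 i)
  have hνge : ∀ i, i ≤ (st i).2 := by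
    intro i
    induction i with
    | zero => exact Nat.zero_le _
    | succ i ih => exact (Nat.succ_le_succ ih).trans (hν1 i)
  have hzν : ∀ i, zf (st i).2 ∈ κ (st (i + 1)).2 := fun i => by
    rw [stS]; exact hzk i (st i)
  have hS : ∀ i y, (st i).1 y = ∑ j ∈ Finset.range i, gg j (st j) y := by
    intro i y
    induction i with
    | zero => simp [st0]
    | succ i ih => rw [Finset.sum_range_succ, ← ih, stS]
  have hmem := hsum (fun i => gg i (st i)) (fun i => hgO i (st i)) (by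
    intro i z hz
    have h1 := hgκ i (st i) z (hκ (hνge i) hz)
    refine h1.trans ?_
    exact pow_le_pow_of_le_one (by norm_num) (by norm_num) (Nat.le_succ i))
  obtain ⟨B₀, hB₀⟩ := hbd _ hmem
  obtain ⟨i, hi⟩ := exists_nat_gt B₀
  have hB := hB₀ (zf (st i).2) (hzT _)
  have htail : ∀ l, ‖gg (l + (i + 1)) (st (l + (i + 1))) (zf (st i).2)‖ ≤ (1 / 2 : ℝ) ^ (l + 1) := by
    intro l
    have h1 := hgκ (l + (i + 1)) (st (l + (i + 1))) (zf (st i).2)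
      (hκ (hνmono (Nat.le_add_left (i + 1) l)) (hzν i))
    refine h1.trans ?_
    exact pow_le_pow_of_le_one (by norm_num) (by norm_num) (by omega)
  have hgeo : HasSum (fun l : ℕ => (1 / 2 : ℝ) ^ (l + 1)) 1 := by
    have := (hasSum_geometric_two).mul_left (1 / 2 : ℝ)
    simpa [pow_succ, mul_comm] using this
  have hsumtail : Summable fun l => gg (l + (i + 1)) (st (l + (i + 1))) (zf (st i).2) :=
    Summable.of_norm_bounded hgeo.summable htail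
  have hsm : Summable fun l => gg l (st l) (zf (st i).2) :=
    (summable_nat_add_iff (i + 1)).mp hsumtail
  have hsplit := hsm.sum_add_tsum_nat_add (i + 1)
  have htn : ‖∑' l, gg (l + (i + 1)) (st (l + (i + 1))) (zf (st i).2)‖ ≤ 1 :=
    tsum_of_norm_bounded hgeo htail
  rw [Finset.sum_range_succ, ← hS] at hsplit
  have hgi := hgz i (st i)
  rw [← hsplit] at hB
  have e1 : gg i (st i) (zf (st i).2) =
      ((st i).1 (zf (st i).2) + gg i (st i) (zf (st i).2) +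
        ∑' l, gg (l + (i + 1)) (st (l + (i + 1))) (zf (st i).2)) - (st i).1 (zf (st i).2)
        - ∑' l, gg (l + (i + 1)) (st (l + (i + 1))) (zf (st i).2) := by ring
  have e2 : ‖gg i (st i) (zf (st i).2)‖ ≤ B₀ + ‖(st i).1 (zf (st i).2)‖ + 1 := by
    rw [e1]
    refine (norm_sub_le _ _).trans ?_
    refine add_le_add ((norm_sub_le _ _).trans ?_) htn
    exact add_le_add hB le_rfl
  rw [hgi] at e2
  linarith

end Pool.Agent.Helper55.Ab
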